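import Pool.Agent.K4W.StmtsV

/-!
Row CQB of squad K4W: small fractional parts in blocks of length `Q`.
-/

set_option autoImplicit false

namespace Pool.Agent.K4W.H60

open Pool.Agent.K4W
open Pool.Agent.VM (Nr)

/-- the number of integers at distance at most `R` from `c` -/
theorem card_ball (c R : ℝ) (hR : 0 ≤ R) (s : Finset ℤ) (hs : ∀ w ∈ s, |c + (w : ℝ)| ≤ R) :
    (s.card : ℝ) ≤ 2 * R + 1 := by
  have h1 : s ⊆ Finset.Icc (⌈-c - R⌉) (⌊-c + R⌋) := by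
    intro w hw
    have h := abs_le.1 (hs w hw)
    rw [Finset.mem_Icc]
    constructor
    · rw [Int.ceil_le]
      linarith [h.1]
    · rw [Int.le_floor]
      linarith [h.2]
  have h2 := Finset.card_le_card h1
  rw [Int.card_Icc] at h2
  have h3 : (s.card : ℝ) ≤ (((⌊-c + R⌋ + 1 - ⌈-c - R⌉).toNat : ℕ) : ℝ) := by exact_mod_cast h2
  refine h3.trans ?_
  rcases le_total 0 (⌊-c + R⌋ + 1 - ⌈-c - R⌉) with h | h
  · have e : (((⌊-c + R⌋ + 1 - ⌈-c - R⌉).toNat : ℕ) : ℝ) =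
        ((⌊-c + R⌋ + 1 - ⌈-c - R⌉ : ℤ) : ℝ) := by
      have := Int.toNat_of_nonneg h
      exact_mod_cast this
    rw [e]
    push_cast
    have f1 := Int.floor_le (-c + R)
    have f2 := Int.le_ceil (-c - R)
    linarith
  · rw [Int.toNat_of_nonpos h]
    push_cast
    linarith

theorem cqb : CqbStmt := by
  intro θ δ η a Q X hQ hg hδ hη A hA
  classical
  have hQ0 : (0 : ℝ) < Q := by exact_mod_cast hQ
  have hQz : (0 : ℤ) < (Q : ℤ) := by exact_mod_cast hQ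
  have hδ0 : 0 ≤ δ := le_trans (mul_nonneg (abs_nonneg _) hQ0.le) hδ
  have hR0 : 0 ≤ (Q : ℝ) * (η + δ) := by positivity
  have hfib : ∀ β : ℤ, (((A.filter (fun n => (n + (X : ℤ)) / (Q : ℤ) = β)).card : ℕ) : ℝ) ≤
      2 * ((Q : ℝ) * (η + δ)) + 1 := by
    intro β
    choose! z hz using fun n (hn : n ∈ A) => (hA n hn).2
    obtain ⟨w, hw⟩ : ∃ w : ℤ → ℤ, ∀ n, w n = a * (n + (X : ℤ) - Q * β) - Q * z n :=
      ⟨fun n => a * (n + (X : ℤ) - Q * β) - Q * z n, fun _ => rfl⟩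
    have hk : ∀ n, (n + (X : ℤ)) / (Q : ℤ) = β →
        0 ≤ n + (X : ℤ) - Q * β ∧ n + (X : ℤ) - Q * β < Q := by
      intro n hn
      have h1 := Int.mul_ediv_add_emod (n + (X : ℤ)) (Q : ℤ)
      have h2 := Int.emod_nonneg (n + (X : ℤ)) hQz.ne'
      have h3 := Int.emod_lt_of_pos (n + (X : ℤ)) hQz
      rw [hn] at h1
      constructor <;> linarith
    have hinj : Set.InjOn w (A.filter (fun n => (n + (X : ℤ)) / (Q : ℤ) = β) : Finset ℤ) := by
      intro n hn n' hn' hww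
      rw [Finset.mem_coe, Finset.mem_filter] at hn hn'
      have k1 := hk n hn.2
      have k2 := hk n' hn'.2
      rw [hw, hw] at hww
      have hd : (Q : ℤ) ∣ a * (n - n') := ⟨z n - z n', by linarith⟩
      have hco : IsCoprime (Q : ℤ) a := by
        rw [Int.isCoprime_iff_gcd_eq_one, Int.gcd_comm]
        exact hg
      have hd' : (Q : ℤ) ∣ n - n' := hco.dvd_of_dvd_mul_left hd
      have hlt : |n - n'| < (Q : ℤ) := by
        rw [abs_lt]
        constructor <;> linarith [k1.1, k1.2, k2.1, k2.2]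
      have := Int.eq_zero_of_abs_lt_dvd hd' hlt
      linarith
    rw [← Finset.card_image_of_injOn hinj]
    refine card_ball ((Q : ℝ) * (θ * ((Q : ℝ) * β - X))) _ hR0 _ ?_
    intro v hv
    rw [Finset.mem_image] at hv
    obtain ⟨n, hn, rfl⟩ := hv
    rw [Finset.mem_filter] at hn
    have k1 := hk n hn.2
    have k1r : (0 : ℝ) ≤ (n : ℝ) + X - Q * β := by exact_mod_cast k1.1
    have k2r : (n : ℝ) + X - Q * β ≤ Q := by exact_mod_cast k1.2.le
    have hzn := hz n hn.1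
    rw [hw]
    have e : (Q : ℝ) * (θ * ((Q : ℝ) * β - X)) +
        ((a * (n + (X : ℤ) - Q * β) - Q * z n : ℤ) : ℝ) =
        (Q : ℝ) * ((θ * n - z n) - (θ - (a : ℝ) / Q) * ((n : ℝ) + X - Q * β)) := by
      push_cast
      field_simp
      ring
    rw [e, abs_mul, abs_of_pos hQ0]
    have h5 : |(θ - (a : ℝ) / Q) * ((n : ℝ) + X - Q * β)| ≤ δ := by
      rw [abs_mul, abs_of_nonneg k1r]
      calc |θ - (a : ℝ) / Q| * ((n : ℝ) + X - Q * β) ≤ |θ - (a : ℝ) / Q| * (Q : ℝ) := by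
            gcongr
        _ ≤ δ := hδ
    have h6 := abs_sub (θ * (n : ℝ) - z n) ((θ - (a : ℝ) / Q) * ((n : ℝ) + X - Q * β))
    gcongr
    linarith
  have hM := Finset.card_le_mul_card_image (f := fun n : ℤ => (n + (X : ℤ)) / (Q : ℤ)) A
    ⌊2 * ((Q : ℝ) * (η + δ)) + 1⌋₊ (by
      intro β _
      exact Nat.le_floor (hfib β))
  have hI : (A.image (fun n : ℤ => (n + (X : ℤ)) / (Q : ℤ))).card ≤ 2 * X / Q + 1 := by
    have h1 : A.image (fun n : ℤ => (n + (X : ℤ)) / (Q : ℤ)) ⊆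
        Finset.Icc (0 : ℤ) ((2 * X / Q : ℕ) : ℤ) := by
      intro β hβ
      rw [Finset.mem_image] at hβ
      obtain ⟨n, hn, rfl⟩ := hβ
      have h2 := abs_le.1 (hA n hn).1
      rw [Finset.mem_Icc]
      refine ⟨Int.ediv_nonneg (by linarith [h2.1]) hQz.le, ?_⟩
      have e : ((2 * X / Q : ℕ) : ℤ) = (2 * (X : ℤ)) / (Q : ℤ) := by push_cast; rfl
      rw [e]
      exact Int.ediv_le_ediv hQz (by linarith [h2.2])
    have h2 := Finset.card_le_card h1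
    rw [Int.card_Icc, sub_zero] at h2
    exact h2.trans (le_of_eq (Int.toNat_natCast (2 * X / Q + 1)))
  have hIr : ((A.image (fun n : ℤ => (n + (X : ℤ)) / (Q : ℤ))).card : ℝ) ≤
      2 * (X : ℝ) / (Q : ℝ) + 2 := by
    have h1 : ((A.image (fun n : ℤ => (n + (X : ℤ)) / (Q : ℤ))).card : ℝ) ≤
        ((2 * X / Q + 1 : ℕ) : ℝ) := by exact_mod_cast hI
    have h2 : ((2 * X / Q : ℕ) : ℝ) ≤ 2 * (X : ℝ) / (Q : ℝ) := by
      have := @Nat.cast_div_le ℝ _ _ _ (2 * X) Q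
      push_cast at this
      exact this
    push_cast at h1
    linarith
  have hMr : (A.card : ℝ) ≤ ((⌊2 * ((Q : ℝ) * (η + δ)) + 1⌋₊ : ℕ) : ℝ) *
      ((A.image (fun n : ℤ => (n + (X : ℤ)) / (Q : ℤ))).card : ℝ) := by exact_mod_cast hM
  have hfl := Nat.floor_le (by positivity : 0 ≤ 2 * ((Q : ℝ) * (η + δ)) + 1)
  calc (A.card : ℝ) ≤ ((⌊2 * ((Q : ℝ) * (η + δ)) + 1⌋₊ : ℕ) : ℝ) *
      ((A.image (fun n : ℤ => (n + (X : ℤ)) / (Q : ℤ))).card : ℝ) := hMr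
    _ ≤ (2 * ((Q : ℝ) * (η + δ)) + 1) * (2 * (X : ℝ) / (Q : ℝ) + 2) := by
        gcongr
    _ = (2 * (X : ℝ) / (Q : ℝ) + 2) * (2 * (η + δ) * (Q : ℝ) + 1) := by ring

end Pool.Agent.K4W.H60
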