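import Pool.Agent.K4W.StmtsM

/-!
Row MSQ of squad K4W: square roots modulo a prime in an interval.
-/

set_option autoImplicit false

namespace Pool.Agent.K4W.H60

open Pool.Agent.K4W

theorem cls_card (M q : ℕ) (hq : 0 < q) (c : ℤ) :
    ((Finset.Icc (-(M : ℤ)) (M : ℤ)).filter (fun m => (q : ℤ) ∣ m - c)).card ≤ 2 * M / q + 1 := by
  have hq' : (0 : ℤ) < (q : ℤ) := by exact_mod_cast hq
  have h1 : ((Finset.Icc (-(M : ℤ)) (M : ℤ)).filter (fun m => (q : ℤ) ∣ m - c)).card ≤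
      (Finset.Icc (0 : ℤ) ((2 * M / q : ℕ) : ℤ)).card := by
    apply Finset.card_le_card_of_injOn (fun m => (m + (M : ℤ)) / (q : ℤ))
    · intro m hm
      rw [Finset.mem_coe, Finset.mem_filter, Finset.mem_Icc] at hm
      rw [Finset.mem_coe, Finset.mem_Icc]
      refine ⟨Int.ediv_nonneg (by omega) hq'.le, ?_⟩
      have e : ((2 * M / q : ℕ) : ℤ) = (2 * (M : ℤ)) / (q : ℤ) := by push_cast; rfl
      rw [e]
      exact Int.ediv_le_ediv hq' (by omega)
    · intro m hm m' hm' hmm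
      rw [Finset.mem_coe, Finset.mem_filter, Finset.mem_Icc] at hm hm'
      have hd : (q : ℤ) ∣ (m + M) - (m' + M) := by
        have := dvd_sub hm.2 hm'.2
        have e : m - c - (m' - c) = (m + M) - (m' + M) := by ring
        rwa [e] at this
      have hmod : (m + (M : ℤ)) % q = (m' + (M : ℤ)) % q :=
        (Int.emod_eq_emod_iff_emod_sub_eq_zero).2 (Int.emod_eq_zero_of_dvd hd)
      have a1 := Int.mul_ediv_add_emod (m + (M : ℤ)) (q : ℤ)
      have a2 := Int.mul_ediv_add_emod (m' + (M : ℤ)) (q : ℤ)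
      have hmm' : (m + (M : ℤ)) / (q : ℤ) = (m' + (M : ℤ)) / (q : ℤ) := hmm
      rw [hmm', hmod] at a1
      have : m + (M : ℤ) = m' + M := a1.symm.trans a2
      linarith
  have h2 : (Finset.Icc (0 : ℤ) ((2 * M / q : ℕ) : ℤ)).card = 2 * M / q + 1 := by
    rw [Int.card_Icc, sub_zero]
    exact Int.toNat_natCast (2 * M / q + 1)
  omega

theorem msq : MsqStmt := by
  intro M q t hq
  have hq0 : 0 < q := hq.pos
  have hqR : (0 : ℝ) < q := by exact_mod_cast hq0
  rcases Finset.eq_empty_or_nonempty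
    ((Finset.Icc (-(M : ℤ)) (M : ℤ)).filter (fun m => (q : ℤ) ∣ m ^ 2 - t)) with h | ⟨m₀, h₀⟩
  · rw [h]
    simp only [Finset.card_empty, Nat.cast_zero]
    positivity
  · rw [Finset.mem_filter] at h₀
    have hsub : ((Finset.Icc (-(M : ℤ)) (M : ℤ)).filter (fun m => (q : ℤ) ∣ m ^ 2 - t)) ⊆
        ((Finset.Icc (-(M : ℤ)) (M : ℤ)).filter (fun m => (q : ℤ) ∣ m - m₀)) ∪
        ((Finset.Icc (-(M : ℤ)) (M : ℤ)).filter (fun m => (q : ℤ) ∣ m - (-m₀))) := by
      intro m hm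
      rw [Finset.mem_filter] at hm
      rw [Finset.mem_union, Finset.mem_filter, Finset.mem_filter]
      have hd : (q : ℤ) ∣ (m - m₀) * (m - (-m₀)) := by
        have := dvd_sub hm.2 h₀.2
        have e : m ^ 2 - t - (m₀ ^ 2 - t) = (m - m₀) * (m - (-m₀)) := by ring
        rwa [e] at this
      rcases (Nat.prime_iff_prime_int.1 hq).dvd_or_dvd hd with h | h
      · exact Or.inl ⟨hm.1, h⟩
      · exact Or.inr ⟨hm.1, h⟩
    have hc := (Finset.card_le_card hsub).trans (Finset.card_union_le _ _)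
    have c1 := cls_card M q hq0 m₀
    have c2 := cls_card M q hq0 (-m₀)
    have hfin : ((Finset.Icc (-(M : ℤ)) (M : ℤ)).filter (fun m => (q : ℤ) ∣ m ^ 2 - t)).card ≤
        2 * (2 * M / q + 1) := by omega
    have hR : ((((Finset.Icc (-(M : ℤ)) (M : ℤ)).filter
        (fun m => (q : ℤ) ∣ m ^ 2 - t)).card : ℕ) : ℝ) ≤ ((2 * (2 * M / q + 1) : ℕ) : ℝ) := by
      exact_mod_cast hfin
    refine hR.trans ?_
    push_cast
    have hdiv : ((2 * M / q : ℕ) : ℝ) ≤ 2 * (M : ℝ) / (q : ℝ) := by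
      have := @Nat.cast_div_le ℝ _ _ _ (2 * M) q
      push_cast at this
      exact this
    linarith

end Pool.Agent.K4W.H60
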